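import Mathlib
import Pool.Agent.Helper198.BrandtE
import Pool.Agent.Helper198.BrandtK

/-!
# Largest plus smallest adjacency eigenvalue of `K_{r+1}`-free graphs

`lamMax G`, `lamMin G` are the largest and the smallest eigenvalue of the adjacency matrix of `G`,
`f r n` is the supremum of `lamMax G + lamMin G` over the `K_{r+1}`-free graphs on `Fin n`, and
`fReg r n` is the supremum over the regular ones.
-/

namespace Pool.Agent.Results.MP_f94384_co.CliqueExact

open Finset Pool.Agent.Helper198.Brandt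

open Classical in
/-- the largest value of `lamMax + lamMin` over the regular `K_{r+1}`-free graphs on `n`
vertices -/
noncomputable def fReg (r n : ℕ) : ℝ :=
  ⨆ G : {G : SimpleGraph (Fin n) // G.CliqueFree (r + 1) ∧ ∃ d : ℕ, G.IsRegularOfDegree d},
    (lamMax G.1 + lamMin G.1)

lemma turan_regular {n r : ℕ} (hr : 0 < r) (hd : r ∣ n)
    (inst : DecidableRel (SimpleGraph.turanGraph n r).Adj) :
    ∃ d : ℕ, (SimpleGraph.turanGraph n r).IsRegularOfDegree d := by
  refine ⟨n - n / r, fun i => ?_⟩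
  have h1 := count_dvd hr hd (i : ℕ)
  have h2 : ((SimpleGraph.turanGraph n r).degree i : ℝ) =
      ∑ j : Fin n, (if (i : ℕ) % r = (j : ℕ) % r then (0:ℝ) else 1) := by
    rw [← SimpleGraph.card_neighborFinset_eq_degree]
    have : (SimpleGraph.turanGraph n r).neighborFinset i
        = Finset.univ.filter (fun j : Fin n => ¬ ((i : ℕ) % r = (j : ℕ) % r)) := by
      ext j
      simp [SimpleGraph.turanGraph_adj]
    rw [this, Finset.card_filter, Nat.cast_sum]
    refine Finset.sum_congr rfl (fun j _ => ?_)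
    by_cases h : (i : ℕ) % r = (j : ℕ) % r <;> simp [h]
  have h3 : ∑ j : Fin n, (if (i : ℕ) % r = (j : ℕ) % r then (1:ℝ) else 0) +
      ∑ j : Fin n, (if (i : ℕ) % r = (j : ℕ) % r then (0:ℝ) else 1) = n := by
    rw [← Finset.sum_add_distrib]
    have : (n : ℝ) = ∑ _j : Fin n, (1 : ℝ) := by simp
    rw [this]
    refine Finset.sum_congr rfl (fun j _ => ?_)
    split_ifs <;> simp
  obtain ⟨m, rfl⟩ := hd
  rw [h1, ← h2] at h3
  have hrp : (0 : ℝ) < r := by exact_mod_cast hr
  have h4 : ((r * m : ℕ) : ℝ) / r = m := by push_cast; field_simp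
  rw [h4] at h3
  have h5 : m + (SimpleGraph.turanGraph (r * m) r).degree i = r * m := by exact_mod_cast h3
  rw [Nat.mul_div_cancel_left _ hr]
  omega

theorem result :
    -- the inequality, for every `K_{r+1}`-free graph on `n` vertices
    (∀ (r n : ℕ) (G : SimpleGraph (Fin n)) [DecidableRel G.Adj],
      2 ≤ r → 1 ≤ n → G.CliqueFree (r + 1) →
        (n : ℝ) ≤ ((n : ℝ) - lamMax G) *
          ∑ j ∈ range r, ((lamMax G - lamMin G) / (n : ℝ)) ^ j) ∧
    -- equality holds for the balanced Turan graphs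
    (∀ r n : ℕ, 2 ≤ r → 1 ≤ n → r ∣ n →
      lamMax (SimpleGraph.turanGraph n r) = (1 - 1 / (r : ℝ)) * n ∧
      lamMin (SimpleGraph.turanGraph n r) = -((n : ℝ) / r) ∧
      (n : ℝ) = ((n : ℝ) - lamMax (SimpleGraph.turanGraph n r)) *
          ∑ j ∈ range r, ((lamMax (SimpleGraph.turanGraph n r) -
            lamMin (SimpleGraph.turanGraph n r)) / (n : ℝ)) ^ j) ∧
    -- the resulting bounds for `f_r(n)`
    (∀ r n : ℕ, 2 ≤ r → 1 ≤ n →
      (1 - 2 / (r : ℝ)) * n - 2 ≤ f r n ∧
      (r ∣ n → (1 - 2 / (r : ℝ)) * n ≤ f r n) ∧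
      f r n ≤ (1 - 2 / (r : ℝ) + 4 / (r : ℝ) ^ 3) * n ∧
      f r n ≤ (5 - 4 / (r : ℝ) - 4 * Real.sqrt (1 - 1 / (r : ℝ))) * n) ∧
    -- the `K_4`-free case
    (∀ n : ℕ, 1 ≤ n → f 3 n ≤ (387 / 1000) * n) ∧
    -- the exact value for regular graphs and large `r`
    (∀ r n : ℕ, 100000 ≤ r → 1 ≤ n →
      (∀ (G : SimpleGraph (Fin n)) [DecidableRel G.Adj] (d : ℕ), G.CliqueFree (r + 1) →
        G.IsRegularOfDegree d → lamMax G + lamMin G ≤ (1 - 2 / (r : ℝ)) * n) ∧
      fReg r n ≤ (1 - 2 / (r : ℝ)) * n ∧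
      (r ∣ n → fReg r n = (1 - 2 / (r : ℝ)) * n)) := by
  refine ⟨?_, ?_, ?_, ?_, ?_⟩
  · intro r n G _ hr hn hG
    have : Nonempty (Fin n) := ⟨⟨0, hn⟩⟩
    have h := (upper G hr hG).1
    rwa [Fintype.card_fin] at h
  · intro r n hr hn hd
    have hnp : (0 : ℝ) < n := by exact_mod_cast hn
    have hrp : (0 : ℝ) < r := by exact_mod_cast (show 0 < r by omega)
    obtain ⟨h1, h2⟩ := turan_exact hn hr hd
    refine ⟨by rw [h1]; ring, h2, ?_⟩
    rw [h1, h2]
    have e1 : ((n : ℝ) - n / r - -((n : ℝ) / r)) / n = 1 := by field_simp; ring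
    rw [e1]
    simp
    field_simp
  · intro r n hr hn
    have : Nonempty (Fin n) := ⟨⟨0, hn⟩⟩
    refine ⟨f_lower (by omega) hn, f_lower_dvd hr hn, ?_, ?_⟩
    · refine f_le (by omega) ?_
      intro G _ hG
      have h := (upper G hr hG).2.1
      rwa [Fintype.card_fin] at h
    · refine f_le (by omega) ?_
      intro G _ hG
      have h := (upper G hr hG).2.2.1
      rwa [Fintype.card_fin] at h
  · intro n hn
    have : Nonempty (Fin n) := ⟨⟨0, hn⟩⟩
    refine f_le (by norm_num) ?_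
    intro G _ hG
    have h := (upper G (by norm_num) hG).2.2.2 rfl
    rwa [Fintype.card_fin] at h
  · intro r n hr hn
    have : Nonempty (Fin n) := ⟨⟨0, hn⟩⟩
    have key : ∀ (G : SimpleGraph (Fin n)) [DecidableRel G.Adj] (d : ℕ), G.CliqueFree (r + 1) →
        G.IsRegularOfDegree d → lamMax G + lamMin G ≤ (1 - 2 / (r : ℝ)) * n := by
      intro G _ d hG hreg
      have h := reg_main G hr hG hreg
      rwa [Fintype.card_fin] at h
    have hle : fReg r n ≤ (1 - 2 / (r : ℝ)) * n := by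
      classical
      have : Nonempty {G : SimpleGraph (Fin n) // G.CliqueFree (r + 1) ∧
          ∃ d : ℕ, G.IsRegularOfDegree d} :=
        ⟨⟨⊥, SimpleGraph.cliqueFree_bot (by omega), 0, fun v => by
          rw [← SimpleGraph.card_neighborFinset_eq_degree]
          simp⟩⟩
      unfold fReg
      refine ciSup_le ?_
      rintro ⟨G, hG, d, hd⟩
      exact @key G (fun a b => Classical.propDecidable (G.Adj a b)) d hG hd
    refine ⟨key, hle, fun hdv => le_antisymm hle ?_⟩
    classical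
    have hr0 : 0 < r := by omega
    obtain ⟨h1, h2⟩ := @turan_exact n r hn (by omega : 2 ≤ r) hdv
      (fun a b => Classical.propDecidable ((SimpleGraph.turanGraph n r).Adj a b))
    unfold fReg
    have h3 := le_ciSup (f := fun G : {G : SimpleGraph (Fin n) // G.CliqueFree (r + 1) ∧
        ∃ d : ℕ, G.IsRegularOfDegree d} => (lamMax G.1 + lamMin G.1))
      (Set.finite_range _).bddAbove ⟨SimpleGraph.turanGraph n r,
        SimpleGraph.turanGraph_cliqueFree hr0, turan_regular hr0 hdv
          (fun a b => Classical.propDecidable ((SimpleGraph.turanGraph n r).Adj a b))⟩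
    refine le_trans (le_of_eq ?_) h3
    rw [h1, h2]
    ring

end Pool.Agent.Results.MP_f94384_co.CliqueExact
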